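import Pool.Agent.ANR.Stmts

/-! Squad ANR (MP_1906c1_mp), row FRM (helper44): the change of the form of the outer sites. -/

set_option autoImplicit false

open scoped BigOperators ComplexConjugate

noncomputable section

namespace Pool.Agent.ANR.H44

theorem pw {a g g' d w : ℝ} (ha : 0 ≤ a) (hw : 0 ≤ w) (hg : 0 ≤ g) (hg' : 0 ≤ g') (hd : 0 ≤ d)
    (h : |g' - g| ≤ d) :
    |a * g' ^ 2 * w - a * g ^ 2 * w| ≤ a * (2 * g * d + d ^ 2) * w := by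
  have h1 : |g' ^ 2 - g ^ 2| ≤ 2 * g * d + d ^ 2 := by
    have h2 : g' ^ 2 - g ^ 2 = (g' - g) * (g' + g) := by ring
    have h3 : g' ≤ g + d := by linarith [(abs_le.1 h).2]
    have h4 : |g' + g| = g' + g := abs_of_nonneg (by linarith)
    rw [h2, abs_mul, h4]
    calc |g' - g| * (g' + g) ≤ d * (g + d + g) :=
          mul_le_mul h (by linarith) (by linarith) hd
      _ = _ := by ring
  have h5 : a * g' ^ 2 * w - a * g ^ 2 * w = a * w * (g' ^ 2 - g ^ 2) := by ring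
  rw [h5, abs_mul, abs_of_nonneg (mul_nonneg ha hw)]
  calc a * w * |g' ^ 2 - g ^ 2| ≤ a * w * (2 * g * d + d ^ 2) :=
        mul_le_mul_of_nonneg_left h1 (mul_nonneg ha hw)
    _ = _ := by ring

theorem young {g d ε : ℝ} (hε : 0 < ε) (hε1 : ε ≤ 1) :
    1 / 2 * (2 * g * d + d ^ 2) ≤ ε / 2 * g ^ 2 + 1 / ε * d ^ 2 := by
  obtain ⟨t, ht⟩ : ∃ t : ℝ, t = 1 / ε := ⟨_, rfl⟩
  have hte : t * ε = 1 := by rw [ht]; field_simp
  have ht1 : 1 ≤ t := by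
    rw [ht, le_div_iff₀ hε]
    linarith
  rw [← ht]
  have h1 : 0 ≤ t * (ε * g - d) ^ 2 := mul_nonneg (by linarith) (sq_nonneg _)
  have h2 : t * (ε * g - d) ^ 2 = ε * g ^ 2 - 2 * g * d + t * d ^ 2 := by
    linear_combination (ε * g ^ 2 - 2 * g * d) * hte
  have h3 : d ^ 2 ≤ t * d ^ 2 := by nlinarith [sq_nonneg d]
  rw [h2] at h1
  linarith

theorem frm (h2 : Lv2Stmt) (hgeq : GeqStmt) : FrmStmt := by
  intro X _ _ H H' κ κ' F A B L f c ε hN hN' hoff hdis hBA hε hε1 hL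
  classical
  obtain ⟨G, hG⟩ : ∃ G, G = Gr H κ := ⟨_, rfl⟩
  obtain ⟨G', hG'⟩ : ∃ G', G' = Gr H' κ' := ⟨_, rfl⟩
  have hs : ∀ x y, G x y = G y x := by rw [hG]; exact (hgeq X H κ hN).2.1
  have hs' : ∀ x y, G' x y = G' y x := by rw [hG']; exact (hgeq X H' κ' hN').2.1
  have hLv : ∀ x ∈ A, ∑ z ∈ Fᶜ, κ z * ‖G z x - G' z x‖ ^ 2 ≤ 4 * L x := by
    intro x hx
    have hxF : x ∉ F := Finset.disjoint_left.1 hdis hx
    obtain ⟨h0, h1⟩ := hL x hx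
    rw [hG, hG']
    exact (h2 X H H' κ κ' F x x (L x) (L x) hN hN' hoff hxF hxF h0 h0 h1 h1).2.1
  have hBF : B ⊆ Fᶜ := fun x hx => by
    rw [Finset.mem_compl]
    exact Finset.disjoint_left.1 hdis (hBA hx)
  have hκ : ∀ x, 0 ≤ κ x := fun x => (hN.pos x).le
  rw [← hG, ← hG']
  -- pointwise
  have hp : ∀ x y, 1 / 2 * |κ x * κ y * ‖G' x y‖ ^ 2 * (f x - f y) ^ 2 -
      κ x * κ y * ‖G x y‖ ^ 2 * (f x - f y) ^ 2| ≤
      (if x ∈ B ∧ y ∈ B then (ε / 2 * (κ x * κ y * ‖G x y‖ ^ 2 * (f x - f y) ^ 2) +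
        1 / ε * (κ x * κ y * ‖G x y - G' x y‖ ^ 2 * (f x - f y) ^ 2)) else 0) +
      (if x ∈ B ∧ y ∈ B then 0 else
        κ x * κ y * (‖G x y‖ * ‖G x y - G' x y‖ + ‖G x y - G' x y‖ ^ 2) * (f x - f y) ^ 2) := by
    intro x y
    have ha : 0 ≤ κ x * κ y := mul_nonneg (hκ x) (hκ y)
    have hw : 0 ≤ (f x - f y) ^ 2 := sq_nonneg _
    have h1 : |‖G' x y‖ - ‖G x y‖| ≤ ‖G x y - G' x y‖ := by
      rw [abs_sub_comm]
      exact abs_norm_sub_norm_le _ _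
    have h3 := pw ha hw (norm_nonneg (G x y)) (norm_nonneg (G' x y))
      (norm_nonneg (G x y - G' x y)) h1
    have h4 : 1 / 2 * |κ x * κ y * ‖G' x y‖ ^ 2 * (f x - f y) ^ 2 -
        κ x * κ y * ‖G x y‖ ^ 2 * (f x - f y) ^ 2| ≤ (κ x * κ y * (f x - f y) ^ 2) *
        (1 / 2 * (2 * ‖G x y‖ * ‖G x y - G' x y‖ + ‖G x y - G' x y‖ ^ 2)) := by
      calc _ ≤ 1 / 2 * (κ x * κ y * (2 * ‖G x y‖ * ‖G x y - G' x y‖ + ‖G x y - G' x y‖ ^ 2) *
            (f x - f y) ^ 2) := mul_le_mul_of_nonneg_left h3 (by norm_num)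
        _ = _ := by ring
    have haw : 0 ≤ κ x * κ y * (f x - f y) ^ 2 := mul_nonneg ha hw
    refine h4.trans ?_
    split_ifs
    · rw [add_zero]
      calc _ ≤ (κ x * κ y * (f x - f y) ^ 2) * (ε / 2 * ‖G x y‖ ^ 2 +
            1 / ε * ‖G x y - G' x y‖ ^ 2) := mul_le_mul_of_nonneg_left (young hε hε1) haw
        _ = _ := by ring
    · rw [zero_add]
      have h5 : 1 / 2 * (2 * ‖G x y‖ * ‖G x y - G' x y‖ + ‖G x y - G' x y‖ ^ 2) ≤
          ‖G x y‖ * ‖G x y - G' x y‖ + ‖G x y - G' x y‖ ^ 2 := by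
        nlinarith [sq_nonneg ‖G x y - G' x y‖]
      calc _ ≤ (κ x * κ y * (f x - f y) ^ 2) * (‖G x y‖ * ‖G x y - G' x y‖ +
            ‖G x y - G' x y‖ ^ 2) := mul_le_mul_of_nonneg_left h5 haw
        _ = _ := by ring
  -- the sum
  have hsum : |cE G' κ A f - cE G κ A f| ≤ ∑ x ∈ A, ∑ y ∈ A,
      ((if x ∈ B ∧ y ∈ B then (ε / 2 * (κ x * κ y * ‖G x y‖ ^ 2 * (f x - f y) ^ 2) +
        1 / ε * (κ x * κ y * ‖G x y - G' x y‖ ^ 2 * (f x - f y) ^ 2)) else 0) +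
      (if x ∈ B ∧ y ∈ B then 0 else
        κ x * κ y * (‖G x y‖ * ‖G x y - G' x y‖ + ‖G x y - G' x y‖ ^ 2) *
          (f x - f y) ^ 2)) := by
    unfold cE
    rw [← mul_sub, ← Finset.sum_sub_distrib, Finset.mul_sum]
    refine (Finset.abs_sum_le_sum_abs _ _).trans (Finset.sum_le_sum fun x _ => ?_)
    rw [← Finset.sum_sub_distrib, Finset.mul_sum]
    refine (Finset.abs_sum_le_sum_abs _ _).trans (Finset.sum_le_sum fun y _ => ?_)
    rw [abs_mul, abs_of_nonneg (by norm_num : (0 : ℝ) ≤ 1 / 2)]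
    exact hp x y
  have hite : ∀ s : X → X → ℝ, ∑ x ∈ A, ∑ y ∈ A, (if x ∈ B ∧ y ∈ B then s x y else 0) =
      ∑ x ∈ B, ∑ y ∈ B, s x y := by
    intro s
    have h3 : ∀ x, ∑ y ∈ A, (if x ∈ B ∧ y ∈ B then s x y else 0) =
        if x ∈ B then ∑ y ∈ B, s x y else 0 := by
      intro x
      by_cases hx : x ∈ B
      · simp only [hx, true_and, if_true]
        rw [Finset.sum_ite_mem, Finset.inter_eq_right.2 hBA]
      · simp only [hx, false_and, if_false, Finset.sum_const_zero]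
    simp only [h3]
    rw [Finset.sum_ite_mem, Finset.inter_eq_right.2 hBA]
  have hsplit : ∑ x ∈ A, ∑ y ∈ A,
      ((if x ∈ B ∧ y ∈ B then (ε / 2 * (κ x * κ y * ‖G x y‖ ^ 2 * (f x - f y) ^ 2) +
        1 / ε * (κ x * κ y * ‖G x y - G' x y‖ ^ 2 * (f x - f y) ^ 2)) else 0) +
      (if x ∈ B ∧ y ∈ B then 0 else
        κ x * κ y * (‖G x y‖ * ‖G x y - G' x y‖ + ‖G x y - G' x y‖ ^ 2) *
          (f x - f y) ^ 2)) = ε * cE G κ B f +
        1 / ε * ∑ x ∈ B, ∑ y ∈ B, κ x * κ y * ‖G x y - G' x y‖ ^ 2 * (f x - f y) ^ 2 +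
        tl G G' κ A B f := by
    simp only [Finset.sum_add_distrib]
    congr 1
    rw [hite]
    simp only [Finset.sum_add_distrib, ← Finset.mul_sum]
    congr 1
    unfold cE
    ring
  rw [hsplit] at hsum
  refine hsum.trans ?_
  have hfin : ∑ x ∈ B, ∑ y ∈ B, κ x * κ y * ‖G x y - G' x y‖ ^ 2 * (f x - f y) ^ 2 ≤
      16 * ∑ x ∈ B, κ x * L x * (f x - c) ^ 2 := by
    have h3 : ∀ x y, κ x * κ y * ‖G x y - G' x y‖ ^ 2 * (f x - f y) ^ 2 ≤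
        2 * (κ x * κ y * ‖G x y - G' x y‖ ^ 2 * (f x - c) ^ 2) +
        2 * (κ x * κ y * ‖G x y - G' x y‖ ^ 2 * (f y - c) ^ 2) := by
      intro x y
      have h4 : 0 ≤ κ x * κ y * ‖G x y - G' x y‖ ^ 2 :=
        mul_nonneg (mul_nonneg (hκ x) (hκ y)) (sq_nonneg _)
      have h5 : (f x - f y) ^ 2 ≤ 2 * (f x - c) ^ 2 + 2 * (f y - c) ^ 2 := by
        nlinarith [sq_nonneg ((f x - c) + (f y - c))]
      calc _ ≤ κ x * κ y * ‖G x y - G' x y‖ ^ 2 * (2 * (f x - c) ^ 2 + 2 * (f y - c) ^ 2) :=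
            mul_le_mul_of_nonneg_left h5 h4
        _ = _ := by ring
    have h6 : ∑ x ∈ B, ∑ y ∈ B, κ x * κ y * ‖G x y - G' x y‖ ^ 2 * (f y - c) ^ 2 =
        ∑ x ∈ B, ∑ y ∈ B, κ x * κ y * ‖G x y - G' x y‖ ^ 2 * (f x - c) ^ 2 := by
      rw [Finset.sum_comm]
      refine Finset.sum_congr rfl fun x _ => Finset.sum_congr rfl fun y _ => ?_
      rw [hs y x, hs' y x, mul_comm (κ y)]
    have h7 : ∀ x ∈ B, ∑ y ∈ B, κ x * κ y * ‖G x y - G' x y‖ ^ 2 * (f x - c) ^ 2 ≤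
        4 * (κ x * L x * (f x - c) ^ 2) := by
      intro x hx
      have h8 : ∑ y ∈ B, κ y * ‖G y x - G' y x‖ ^ 2 ≤ 4 * L x :=
        (Finset.sum_le_sum_of_subset_of_nonneg hBF fun y _ _ =>
          mul_nonneg (hκ y) (sq_nonneg _)).trans (hLv x (hBA hx))
      have h9 : ∑ y ∈ B, κ x * κ y * ‖G x y - G' x y‖ ^ 2 * (f x - c) ^ 2 =
          (κ x * (f x - c) ^ 2) * ∑ y ∈ B, κ y * ‖G y x - G' y x‖ ^ 2 := by
        rw [Finset.mul_sum]
        refine Finset.sum_congr rfl fun y _ => ?_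
        rw [hs x y, hs' x y]
        ring
      rw [h9]
      calc _ ≤ (κ x * (f x - c) ^ 2) * (4 * L x) :=
            mul_le_mul_of_nonneg_left h8 (mul_nonneg (hκ x) (sq_nonneg _))
        _ = _ := by ring
    calc ∑ x ∈ B, ∑ y ∈ B, κ x * κ y * ‖G x y - G' x y‖ ^ 2 * (f x - f y) ^ 2 ≤
        ∑ x ∈ B, ∑ y ∈ B, (2 * (κ x * κ y * ‖G x y - G' x y‖ ^ 2 * (f x - c) ^ 2) +
          2 * (κ x * κ y * ‖G x y - G' x y‖ ^ 2 * (f y - c) ^ 2)) :=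
          Finset.sum_le_sum fun x _ => Finset.sum_le_sum fun y _ => h3 x y
      _ = 4 * ∑ x ∈ B, ∑ y ∈ B, κ x * κ y * ‖G x y - G' x y‖ ^ 2 * (f x - c) ^ 2 := by
          simp only [Finset.sum_add_distrib, ← Finset.mul_sum]
          rw [h6]
          ring
      _ ≤ 4 * ∑ x ∈ B, 4 * (κ x * L x * (f x - c) ^ 2) :=
          mul_le_mul_of_nonneg_left (Finset.sum_le_sum h7) (by norm_num)
      _ = _ := by
          rw [← Finset.mul_sum]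
          ring
  have hfin2 : 1 / ε * ∑ x ∈ B, ∑ y ∈ B, κ x * κ y * ‖G x y - G' x y‖ ^ 2 * (f x - f y) ^ 2 ≤
      16 / ε * ∑ x ∈ B, κ x * L x * (f x - c) ^ 2 := by
    calc _ ≤ 1 / ε * (16 * ∑ x ∈ B, κ x * L x * (f x - c) ^ 2) :=
          mul_le_mul_of_nonneg_left hfin (by positivity)
      _ = _ := by ring
  linarith

end Pool.Agent.ANR.H44
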